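import Mathlib

namespace Pool.Agent.H.MP_708c97_co

open SimpleGraph

def M : List ℕ := [102, 557, 27, 12310, 69644, 1731, 417, 352, 192, 3106, 2592, 1536, 221208, 53256, 45056, 24576, 397328, 331776, 196608]

def A (a b : ℕ) : Bool := (M.getD a 0).testBit b

lemma A_symm : ∀ a b : Fin 19, A a.val b.val = true → A b.val a.val = true := by decide +kernel

lemma A_irr : ∀ a : Fin 19, ¬ A a.val a.val = true := by decide +kernel

def G : SimpleGraph (Fin 19) where
  Adj a b := A a.val b.val = true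
  symm := ⟨A_symm⟩
  loopless := ⟨A_irr⟩

instance : DecidableRel G.Adj := fun a b => inferInstanceAs (Decidable (A a.val b.val = true))

lemma peo : ∀ v a b : Fin 19, G.Adj v a → G.Adj v b → a < v → b < v → a ≠ b → G.Adj a b := by
  decide +kernel

lemma low : ∀ v : Fin 19, (Finset.univ.filter (fun a => a < v ∧ G.Adj v a)).card ≤ 2 := by
  decide +kernel

lemma chordal (m : ℕ) (hm : 4 ≤ m) (c : (cycleGraph m).Copy G) :
    ∃ i j, G.Adj (c i) (c j) ∧ ¬ (cycleGraph m).Adj i j := by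
  obtain ⟨n, rfl⟩ : ∃ n, m = n + 4 := ⟨m - 4, by omega⟩
  obtain ⟨i, -, hi⟩ := Finset.exists_max_image (Finset.univ : Finset (Fin (n + 4))) c
    ⟨0, Finset.mem_univ _⟩
  have h1 : G.Adj (c i) (c (i + 1)) := c.toHom.map_rel (cycleGraph_adj.mpr (Or.inr (by abel)))
  have h2 : G.Adj (c i) (c (i - 1)) := c.toHom.map_rel (cycleGraph_adj.mpr (Or.inl (by abel)))
  have e1 : (1 + 1 : Fin (n + 4)) ≠ 0 := by
    intro h
    have := congrArg Fin.val h
    rw [Fin.val_add, Fin.val_one, Nat.mod_eq_of_lt (show 1 + 1 < n + 4 by omega)] at this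
    simp at this
  have e2 : (1 : Fin (n + 4)) ≠ 0 := by
    intro h; have := congrArg Fin.val h; simp at this
  have e3 : (1 + 1 + 1 : Fin (n + 4)) ≠ 0 := by
    intro h
    have := congrArg Fin.val h
    rw [Fin.val_add, Fin.val_add, Fin.val_one, Nat.mod_eq_of_lt (show 1 + 1 < n + 4 by omega),
      Nat.mod_eq_of_lt (show 1 + 1 + 1 < n + 4 by omega)] at this
    simp at this
  refine ⟨i + 1, i - 1, peo (c i) _ _ h1 h2
    (lt_of_le_of_ne (hi _ (Finset.mem_univ _)) h1.ne')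
    (lt_of_le_of_ne (hi _ (Finset.mem_univ _)) h2.ne') ?_, ?_⟩
  · intro h
    have h3 := c.injective h
    apply e1
    have : (1 + 1 : Fin (n + 4)) = (i + 1) - (i - 1) := by abel
    rw [this, h3, sub_self]
  · intro h
    rcases cycleGraph_adj.mp h with h | h
    · apply e2
      have : (1 : Fin (n + 4)) = (i + 1) - (i - 1) - 1 := by abel
      rw [this, h, sub_self]
    · apply e3
      have : (1 + 1 + 1 : Fin (n + 4)) = 1 - ((i - 1) - (i + 1)) := by abel
      rw [this, h, sub_self]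

lemma clq : G.cliqueNum = 3 := by
  apply le_antisymm
  · obtain ⟨s, hs⟩ := G.exists_isNClique_cliqueNum
    rw [← hs.card_eq]
    rcases s.eq_empty_or_nonempty with rfl | hne
    · simp
    · have hm := s.max'_mem hne
      have h1 : s.erase (s.max' hne) ⊆
          Finset.univ.filter (fun a => a < s.max' hne ∧ G.Adj (s.max' hne) a) := by
        intro a ha
        rw [Finset.mem_erase] at ha
        exact Finset.mem_filter.mpr ⟨Finset.mem_univ _,
          lt_of_le_of_ne (s.le_max' a ha.2) ha.1, hs.isClique hm ha.2 ha.1.symm⟩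
      have h2 := (Finset.card_le_card h1).trans (low _)
      rw [Finset.card_erase_of_mem hm] at h2
      omega
  · have h : G.IsNClique 3 ({0, 1, 2} : Finset (Fin 19)) := by
      rw [is3Clique_triple_iff]; decide +kernel
    rw [← h.card_eq]
    exact h.isClique.card_le_cliqueNum

def L : List (List (Fin 19)) := [
  [0, 1, 2, 3, 4, 12, 13],
  [6, 8, 7, 5, 9, 10, 11],
  [4, 16, 18, 17, 12, 14, 15],
  [5, 9, 1, 3, 13, 14, 15],
  [7, 6, 0, 2, 4, 16, 17],
  [10, 5, 1, 3, 12, 16, 18],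
  [4, 2, 0, 5, 9, 10, 11],
  [8, 6, 0, 2, 3, 12, 14],
  [7, 8, 6, 0, 1, 3, 13],
  [11, 9, 1, 3, 4, 16, 17],
  [8, 7, 5, 1, 2, 4, 12],
  [15, 13, 3, 2, 4, 16, 18],
  [2, 3, 13, 14, 12, 17, 18],
  [6, 0, 2, 1, 9, 10, 11],
  [8, 7, 5, 0, 1, 9, 11],
  [8, 6, 0, 1, 5, 10, 11],
  [13, 15, 14, 12, 16, 17, 18],
  [4, 3, 13, 15, 14, 12, 17],
  [9, 1, 2, 4, 12, 13, 15],
  [0, 1, 9, 10, 5, 6, 7],
  [7, 5, 0, 2, 3, 13, 15],
  [5, 1, 2, 4, 16, 17, 18],
  [11, 9, 1, 3, 12, 14, 15],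
  [14, 13, 3, 4, 16, 17, 18],
  [13, 15, 14, 12, 4, 16, 18],
  [15, 13, 3, 12, 16, 17, 18],
  [6, 0, 2, 4, 12, 17, 18],
  [7, 6, 0, 1, 9, 10, 11],
  [10, 9, 1, 2, 3, 13, 14],
  [2, 3, 1, 5, 6, 7, 8],
  [9, 1, 2, 4, 16, 17, 18],
  [3, 2, 0, 5, 9, 10, 11],
  [6, 0, 2, 3, 13, 14, 15]]

def chk : ℕ → List (Fin 19) → Bool
  | 0, X => L.any (fun p => p.all (fun v => !X.contains v))
  | s + 1, X => L.any (fun p => p.all (fun v => !X.contains v) && p.all (fun v => chk s (v :: X)))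

lemma chk4 : chk 4 [] = true := by decide +kernel

lemma chk_spec (S : Finset (Fin 19)) (s : ℕ) : ∀ X, chk s X = true →
    (S \ X.toFinset).card ≤ s → ∃ p ∈ L, ∀ v ∈ p, v ∉ S := by
  induction s with
  | zero =>
    intro X h hc
    simp only [chk, List.any_eq_true, List.all_eq_true] at h
    obtain ⟨p, hp, h⟩ := h
    refine ⟨p, hp, fun v hv hS => ?_⟩
    have h1 := h v hv
    have h2 : v ∈ S \ X.toFinset := Finset.mem_sdiff.mpr ⟨hS, by simpa using h1⟩
    have := Finset.card_pos.mpr ⟨v, h2⟩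
    omega
  | succ s ih =>
    intro X h hc
    simp only [chk, List.any_eq_true, List.all_eq_true, Bool.and_eq_true] at h
    obtain ⟨p, hp, h, h'⟩ := h
    by_cases e : ∀ v ∈ p, v ∉ S
    · exact ⟨p, hp, e⟩
    · push Not at e
      obtain ⟨v, hv, hS⟩ := e
      have h1 := h v hv
      have h2 : v ∈ S \ X.toFinset := Finset.mem_sdiff.mpr ⟨hS, by simpa using h1⟩
      apply ih (v :: X) (h' v hv)
      have h3 : S \ (v :: X).toFinset = (S \ X.toFinset).erase v := by
        ext x; simp only [List.toFinset_cons, Finset.mem_sdiff, Finset.mem_insert, Finset.mem_erase]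
        tauto
      rw [h3, Finset.card_erase_of_mem h2]
      omega

lemma Lok : ∀ p ∈ L, (∀ i j : Fin 7, i.val + 1 = j.val → G.Adj (p.getD i 0) (p.getD j 0)) ∧
    (∀ i j : Fin 7, p.getD i 0 = p.getD j 0 → i = j) ∧ ∀ i : Fin 7, p.getD i 0 ∈ p := by
  decide +kernel

lemma cover (S : Finset (Fin 19)) (h : ∀ p : (pathGraph 7).Copy G, ∃ i, p i ∈ S) :
    5 ≤ S.card := by
  by_contra hc
  obtain ⟨p, hp, h1⟩ := chk_spec S 4 [] chk4 (by simp; omega)
  obtain ⟨a, b, c⟩ := Lok p hp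
  obtain ⟨i, hi⟩ := h ⟨⟨fun i => p.getD i 0, fun {i j} hij => by
    rcases pathGraph_adj.mp hij with e | e
    · exact a i j e
    · exact (a j i e).symm⟩, fun i j e => b i j e⟩
  exact h1 _ (c i) hi

end Pool.Agent.H.MP_708c97_co
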